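import Pool.Agent.H88.MCR.Stmts

namespace Pool.MCR

theorem ept_thm : EPT_S := by
  intro s a b
  obtain ⟨σ, hσ, hσ2⟩ : ∃ σ : ℝ, σ = (if s = true then (1 : ℝ) else -1) ∧ σ * σ = 1 := by
    refine ⟨_, rfl, ?_⟩
    cases s <;> norm_num
  have hσ0 : σ ≠ 0 := by
    intro h
    rw [h] at hσ2
    norm_num at hσ2
  have mem : ∀ (u v : ℝ) (p : ℝ × ℝ), p ∈ arcSet s u v ↔
      0 ≤ (p.1 - u) * (v - p.1) ∧ p.2 = σ * ((p.1 - u) * (v - p.1)) := by
    intro u v p
    rw [hσ]
    exact Iff.rfl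
  refine ⟨⟨?_, ?_, ?_, ?_⟩, ?_, ?_⟩
  · rw [mem]
    constructor <;> simp
  · rw [mem]
    constructor <;> simp
  · have h1 : IsClosed {p : ℝ × ℝ | 0 ≤ (p.1 - a) * (b - p.1)} :=
      isClosed_le continuous_const (by fun_prop)
    have h2 : IsClosed {p : ℝ × ℝ | p.2 = σ * ((p.1 - a) * (b - p.1))} :=
      isClosed_eq (by fun_prop) (by fun_prop)
    have h3 : arcSet s a b = {p : ℝ × ℝ | 0 ≤ (p.1 - a) * (b - p.1)} ∩
        {p : ℝ × ℝ | p.2 = σ * ((p.1 - a) * (b - p.1))} := by
      ext p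
      exact mem a b p
    rw [h3]
    exact h1.inter h2
  · ext p
    rw [mem, mem]
    have : (p.1 - a) * (b - p.1) = (p.1 - b) * (a - p.1) := by ring
    rw [this]
  · intro p hp
    rw [mem] at hp
    rw [hp.2]
    constructor
    · intro h
      have h' : (p.1 - a) * (b - p.1) = 0 := by
        rcases mul_eq_zero.mp h with h | h
        · exact absurd h hσ0
        · exact h
      rcases mul_eq_zero.mp h' with h | h
      · left; linarith
      · right; linarith
    · rintro (h | h)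
      · rw [h]; simp
      · rw [h]; simp
  · intro c d e f p h1 h2 h3
    rw [mem] at h1 h2 h3
    obtain ⟨-, h1⟩ := h1
    obtain ⟨-, h2⟩ := h2
    obtain ⟨-, h3⟩ := h3
    have e1 : (p.1 - a) * (b - p.1) = (p.1 - c) * (d - p.1) :=
      mul_left_cancel₀ hσ0 (by rw [← h1, ← h2])
    have e2 : (p.1 - a) * (b - p.1) = (p.1 - e) * (f - p.1) :=
      mul_left_cancel₀ hσ0 (by rw [← h1, ← h3])
    unfold det6
    have k1 : p.1 * (a + b) - a * b = p.1 * (c + d) - c * d := by linarith [e1]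
    have k2 : p.1 * (a + b) - a * b = p.1 * (e + f) - e * f := by linarith [e2]
    have k3 : a * b = p.1 * (a + b) - (p.1 * (e + f) - e * f) := by linarith
    have k4 : c * d = p.1 * (c + d) - (p.1 * (e + f) - e * f) := by linarith
    rw [k3, k4]
    ring

end Pool.MCR
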